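import Pool.Agent.Y707.DP.Fin

/-!
# The residue formula for the squares of the curves `Y ^ 2 = D_n(X, a) + w`

`V` is the variety of the points `(x, y)` with `y_i ^ 2 = G_i(x)`, over the number field `K`, for
polynomials `G_i` in `k` variables such that no product of some of them is a constant times a square.
`C` is the curve `Y ^ 2 = D_n(X, a(x)) + w` of genus `m` over the function field `E(V × 𝔸¹) = E(V)(w)`,
for any number field `E ⊇ K`, where `D_n`, `n = 2 m + 1`, is the Dickson polynomial with the parameter
`a`, a nonzero polynomial function on the base: `D_n(u + a / u, a) = u ^ n + (a / u) ^ n`.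
For `n = 3` this is the elliptic curve `Y ^ 2 = X ^ 3 - 3 a X + w`, and for every `n` the Jacobian of `C`
has real multiplication by the real subfield of the cyclotomic field, over an extension of `K`.

`X = C × C`.  `𝔅_v` is the fibre average at the prime `v` of `E`, over the points `(x, y, w)` of the base
with `y_i ≠ 0` and smooth fibre; the other points of a projective model of the base change `𝔅_v` by
`O(1)`, which does not affect the residue at `s = 2`.
-/

set_option autoImplicit false
set_option maxHeartbeats 400000

namespace Pool.Agent.Results.MP_6090f9_nt.ProductsOfDicksonCurves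

open Polynomial NumberField IsDedekindDomain Pool.Agent.Y707.DP
open Pool.Agent.Y707.PR (HasResidue)
open Pool.Agent.Y707.PC (IsFunctionField IsSmoothCurve exists_field)

theorem result (K : Type) [Field K] [NumberField K] (k l m : ℕ)
    (G : Fin l → MvPolynomial (Fin k) (𝓞 K)) (a : MvPolynomial (Fin k) (𝓞 K))
    (h : IsDickson m G a) (E : IntermediateField K (AlgebraicClosure K)) [NumberField E] :
    -- the analytic side: the residue at `s = 2` of the series of the averages `𝔅_v`
    (∀ R : Finset (HeightOneSpectrum (𝓞 E)), HasResidue R
      (fun v => averageSquare m G a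
        ((Ideal.Quotient.mk v.asIdeal).comp (algebraMap (𝓞 K) (𝓞 E)))) 2 (endRank m E + 2)) ∧
    -- the algebraic side: the Néron-Severi rank over `M(w)`, for the function field `M` of `V` over `E`
    (∀ (M : Type) [Field M] [Algebra E M] (ξ : Fin k → M) (η : Fin l → M),
      IsFunctionField G E ξ η → IsSmoothCurve m (genericCurve m a E ξ) ∧
        SquarePicard (genericCurve m a E ξ) (endRank m E)) ∧
    -- the function field exists
    (∃ (M : Type) (_ : Field M) (_ : Algebra E M) (ξ : Fin k → M) (η : Fin l → M),
      IsFunctionField G E ξ η) :=
  ⟨fun R => product_residue h E R, fun _ _ _ _ _ hM => product_algebraic h E hM,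
    exists_field G E⟩

end Pool.Agent.Results.MP_6090f9_nt.ProductsOfDicksonCurves
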