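import Pool.Agent.Y693.TP.Fa

/-!
# The residue formula for Frobenius averages in fibrations, over random number fields

`F` is a number field of degree `d` and `f` a monic polynomial of degree `n` over `𝓞_F`.  For an integer
`t` let `L = F(θ)` be the extension of degree `n` of `F` generated by a root `θ` of `f + t` (for a given
`f` it exists for all but `O(X^{1/2} log X)` of the integers `|t| ≤ X`, by Hilbert's irreducibility
theorem).  We study the question for the fibrations over the varying field `L` with base `𝒴 = 𝔸^m`, the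
fibre over the point `u` being `V_u × W`, where `V_u` is the product of the `r` elliptic curves
`y² = x³ + A_i(u) x + B_i(u) + θ`, the `A_i`, `B_i` are polynomials in `m` variables over `𝓞_F`, and `W`
is any variety over `F`.  (The fibres at infinity and the singular fibres, which depend on the choice of
a smooth projective model `𝒳 → 𝒴`, change `𝔅_w / q_w` by `O(1 / q_w)` only.  They are left out.)

By the Künneth formula `H²(V_u)` is the sum of the `r` lines `H²(E_i)` and of the spaces
`H¹(E_i) ⊗ H¹(E_j)`, `i < j`, and `H²(V_u × W)` is the sum of `H²(V_u) ⊗ H⁰(W)`, `H¹(V_u) ⊗ H¹(W)` and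
`H⁰(V_u) ⊗ H²(W)`.  The curves `E_i` and `E_j` are isomorphic over `F(θ)(u)` if `A_i³ = A_j³` and
`B_i = B_j`; for an indeterminate `θ` they are not isogenous otherwise (the places of bad reduction
differ), so that the rank `ρ` of `NS` of the product of the curves over `F(θ)(u)` is the sum of `r` and
of the number of these pairs `i < j`.

The polynomials `A_i`, `B_i` may be constant: for `m = 0`, or for constant polynomials, the fibration is
trivial and the residue formula is the Tate conjecture for the fibre.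

The theorem says that for almost all `t` the sum of `(𝔅_w / q_w) log q_w` over the primes `w` of `L` with
`q_w ≤ T` is the sum of `ρ log q_v` and of `b_v(W) log q_v / q_v` over the primes `v` of the fixed field
`F` with `q_v ≤ T`, up to `T^{1/2+δ}`, for all `T` between a power of `log X` and a power of `X`.  Apart
from `X^{1-c}` exceptions `t`, it holds for all extensions `L = F(θ)` and for any `X^c` fibrations,
uniformly in all number fields `F` of degree `d` and all `f`.  After division by `T` the sum over `F`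
tends to `ρ` if `W` is a point, and in general to the sum of `ρ` and of the residue in question for `W`
over `F`.
-/

set_option autoImplicit false

namespace Pool.Agent.Results.MP_6090f9_nt.RandomNumberFields

open NumberField IsDedekindDomain

/-- `q - #{(x, y) : y² = x³ + α x + β}`, where `α`, `β`, `x`, `y` are in the residue field of `v`, with `q`
elements.  It is the trace of the Frobenius on `H¹` of the elliptic curve `y² = x³ + α x + β`. -/
noncomputable def trace {K : Type} [Field K] [NumberField K] (v : HeightOneSpectrum (𝓞 K))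
    (α β : 𝓞 K ⧸ v.asIdeal) : ℂ :=
  (Ideal.absNorm v.asIdeal : ℂ) - Nat.card {P : (𝓞 K ⧸ v.asIdeal) × (𝓞 K ⧸ v.asIdeal) //
    P.2 ^ 2 = P.1 ^ 3 + α * P.1 + β}

/-- The `y² = x³ + α_i x + β_i` are elliptic curves over the residue field of `v` (of characteristic not
`2` or `3`); then their product is smooth. -/
def IsGood {K : Type} [Field K] [NumberField K] {r : ℕ} (v : HeightOneSpectrum (𝓞 K))
    (α β : Fin r → 𝓞 K ⧸ v.asIdeal) : Prop :=
  ∀ i, 6 * (4 * α i ^ 3 + 27 * β i ^ 2) ≠ 0

/-- The trace of the Frobenius on `H¹` of the product of the curves `E_i : y² = x³ + α_i x + β_i`: the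
sum of the traces `a(E_i)`. -/
noncomputable def trace1 {K : Type} [Field K] [NumberField K] {r : ℕ} (v : HeightOneSpectrum (𝓞 K))
    (α β : Fin r → 𝓞 K ⧸ v.asIdeal) : ℂ :=
  ∑ i, trace v (α i) (β i)

/-- The trace of the Frobenius on `H²` of the product of the curves `E_i : y² = x³ + α_i x + β_i`: the
sum of `r q` and of `a(E_i) a(E_j)` for `i < j`. -/
noncomputable def trace2 {K : Type} [Field K] [NumberField K] {r : ℕ} (v : HeightOneSpectrum (𝓞 K))
    (α β : Fin r → 𝓞 K ⧸ v.asIdeal) : ℂ :=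
  r * (Ideal.absNorm v.asIdeal : ℂ) +
    ∑ i, ∑ j ∈ Finset.Ioi i, trace v (α i) (β i) * trace v (α j) (β j)

/-- `b_v(V × W) / q_v`, where `V` is the product of the curves `y² = x³ + α_i x + β_i`.  The variety `W`
is given by the numbers `γ i v j`, the eigenvalues of the Frobenius at `v` on `H^i(W)`, divided by
`q_v^{i/2}`, for `i = 0, 1, 2` (all zero if the reduction of `W` is bad at `v`, so that these `v` do not
contribute to the sums below). -/
noncomputable def coefficient {K : Type} [Field K] [NumberField K] {r N : ℕ}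
    (γ : Fin 3 → HeightOneSpectrum (𝓞 K) → Fin N → ℂ) (v : HeightOneSpectrum (𝓞 K))
    (α β : Fin r → 𝓞 K ⧸ v.asIdeal) : ℂ :=
  trace2 v α β / (Ideal.absNorm v.asIdeal : ℂ) * ∑ j, γ 0 v j +
    trace1 v α β / (√(Ideal.absNorm v.asIdeal : ℝ) : ℂ) * ∑ j, γ 1 v j + ∑ j, γ 2 v j

/-- The value of a polynomial at the point `u` of the base over the residue field of `v`. -/
noncomputable def value {K : Type} [Field K] [NumberField K] {m : ℕ} (v : HeightOneSpectrum (𝓞 K))
    (P : MvPolynomial (Fin m) (𝓞 K)) (u : Fin m → 𝓞 K ⧸ v.asIdeal) : 𝓞 K ⧸ v.asIdeal :=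
  MvPolynomial.eval₂ (Ideal.Quotient.mk v.asIdeal) u P

/-- The fibre average `𝔅_v / q_v`: the sum of `b_v(V_u × W) / q_v` over all points `u` of `𝔸^m` over the
residue field of `v` for which the fibre `V_u : y² = x³ + A_i(u) x + B_i(u)` is smooth, divided by
`q_v^m`. -/
noncomputable def fibreAverage {K : Type} [Field K] [NumberField K] {r N m : ℕ}
    (A B : Fin r → MvPolynomial (Fin m) (𝓞 K)) (γ : Fin 3 → HeightOneSpectrum (𝓞 K) → Fin N → ℂ)
    (v : HeightOneSpectrum (𝓞 K)) : ℂ :=
  (∑ᶠ u ∈ {u : Fin m → 𝓞 K ⧸ v.asIdeal | IsGood v (fun i => value v (A i) u)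
      (fun i => value v (B i) u)},
    coefficient γ v (fun i => value v (A i) u) (fun i => value v (B i) u)) /
      (Ideal.absNorm v.asIdeal : ℂ) ^ m

/-- The sum of `(𝔅_v / q_v) log q_v` over all primes `v` with `q_v ≤ T`. -/
noncomputable def tauberSum {K : Type} [Field K] [NumberField K] {r N m : ℕ}
    (A B : Fin r → MvPolynomial (Fin m) (𝓞 K)) (γ : Fin 3 → HeightOneSpectrum (𝓞 K) → Fin N → ℂ)
    (T : ℕ) : ℂ :=
  ∑ᶠ v ∈ {v : HeightOneSpectrum (𝓞 K) | Ideal.absNorm v.asIdeal ≤ T},
    fibreAverage A B γ v * (Real.log (Ideal.absNorm v.asIdeal : ℝ) : ℂ)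

/-- The number `ρ = r + #{(i, j) : i < j, A_i³ = A_j³, B_i = B_j}`: the rank of the Néron-Severi group
of the product of the curves `y² = x³ + A_i(u) x + B_i(u) + θ` over `F(θ)(u)`, `θ` an indeterminate, if
all `A_i ≠ 0`. -/
noncomputable def picardNumber {F : Type} [Field F] [NumberField F] {r m : ℕ}
    (A B : Fin r → MvPolynomial (Fin m) (𝓞 F)) : ℕ :=
  r + {x : Fin r × Fin r | x.1 < x.2 ∧ A x.1 ^ 3 = A x.2 ^ 3 ∧ B x.1 = B x.2}.ncard

/-- The sum of `(ρ + b_v(W) / q_v) log q_v` over the primes `v` of `F` with `q_v ≤ T`, where `ρ` is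
multiplied by the trace of the Frobenius on `H⁰(W)`, which is `1` for connected `W`. -/
noncomputable def expectedSum {F : Type} [Field F] [NumberField F] {N : ℕ} (ρ : ℕ)
    (γ : Fin 3 → Ideal (𝓞 F) → Fin N → ℂ) (T : ℕ) : ℂ :=
  ∑ᶠ v ∈ {v : HeightOneSpectrum (𝓞 F) | Ideal.absNorm v.asIdeal ≤ T},
    ((ρ : ℂ) * ∑ j, γ 0 v.asIdeal j + ∑ j, γ 2 v.asIdeal j) *
      (Real.log (Ideal.absNorm v.asIdeal : ℝ) : ℂ)

/-- The eigenvalues of the Frobenius at the primes `w` of `L` for the base change of `W` to `L`: at `w`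
above `v` they are the powers `γ ^ f(w|v)` of those at `v`, where `f(w|v)` is the residue degree. -/
noncomputable def baseChange {F : Type} [Field F] [NumberField F] {N : ℕ} (L : Type) [Field L]
    [NumberField L] [Algebra F L] (γ : Fin 3 → Ideal (𝓞 F) → Fin N → ℂ) (i : Fin 3)
    (w : HeightOneSpectrum (𝓞 L)) (j : Fin N) : ℂ :=
  γ i (w.asIdeal.comap (algebraMap (𝓞 F) (𝓞 L))) j ^
    Ideal.inertiaDeg' (w.asIdeal.comap (algebraMap (𝓞 F) (𝓞 L))) w.asIdeal

/-- `L = F(θ)` is an extension of `F` of degree `deg f`, and `θ` is a root of `f + t`. -/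
def Generates {F : Type} [Field F] [NumberField F] {L : Type} [Field L] [NumberField L] [Algebra F L]
    (f : Polynomial (𝓞 F)) (t : ℤ) (θ : 𝓞 L) : Prop :=
  Polynomial.aeval θ (f + Polynomial.C (t : 𝓞 F)) = 0 ∧ Module.finrank F L = f.natDegree ∧
    Algebra.adjoin F {(θ : L)} = ⊤

/-- All conjugates of `x` have absolute value at most `R`. -/
def HeightLE {F : Type} [Field F] [NumberField F] (R : ℝ) (x : 𝓞 F) : Prop :=
  ∀ σ : F →+* ℂ, ‖σ (x : F)‖ ≤ R

/-- The polynomial `P` has degree at most `D`, and the conjugates of its coefficients have absolute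
value at most `R`. -/
def IsBounded {F : Type} [Field F] [NumberField F] {m : ℕ} (D : ℕ) (R : ℝ)
    (P : MvPolynomial (Fin m) (𝓞 F)) : Prop :=
  P.totalDegree ≤ D ∧ ∀ e, HeightLE R (P.coeff e)

/-- **The residue formula for Frobenius averages in fibrations, over random number fields.**  Let `d`,
`n`, `r`, `N`, `m`, `D` be integers, `n ≥ 1`, `H` real and `δ > 0`.  There are `c > 0` and `X₀`, such
that for all `X ≥ X₀`, all number fields `F` of degree `d`, all monic polynomials `f` of degree `n` over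
`𝓞_F`, and any `M ≤ X^c` families of `r` curves `y² = x³ + A_{k,i}(u) x + B_{k,i}(u) + θ` with `m`
parameters `u`, `A_{k,i} ≠ 0`, and varieties `W_k` over `F`, the following holds for all integers `t` with
`|t| ≤ X`, with at most `X^{1-c}` exceptions.  Let `L = F(θ)` be any extension of `F` of degree `n` with
`f(θ) = - t`.  For all `k` let `V_{k,u}` be the product over `L` of the `r` curves and `ρ_k` the rank of
`NS` of its generic fibre for an indeterminate `θ`.  Then the sum of `(𝔅_w / q_w) log q_w` over the primes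
`w` of `L` with `q_w ≤ T`, for the family of the `V_{k,u} × W_k`, differs by at most `T^{1/2+δ}` from the
sum of `(ρ_k + b_v(W_k) / q_v) log q_v` over the primes `v` of `F` with `q_v ≤ T`, for all
`(log X)^{1/c} ≤ T ≤ X^c`.

Here the polynomials `A_{k,i}`, `B_{k,i}` have degree at most `D`, the conjugates of their coefficients
and of those of `f` are at most `exp((log X)^H)`, and only `|γ| ≤ 1` is used of the eigenvalues for the
varieties `W_k`. -/
theorem result (d n r N m D : ℕ) (_ : 0 < n) (H δ : ℝ) (_ : 0 < δ) :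
    ∃ c : ℝ, 0 < c ∧ ∃ X₀ : ℕ, ∀ X : ℕ, X₀ ≤ X →
      ∀ (F : Type) [Field F] [NumberField F], Module.finrank ℚ F = d →
      ∀ f : Polynomial (𝓞 F), f.Monic → f.natDegree = n →
      (∀ i, HeightLE (Real.exp ((Real.log X) ^ H)) (f.coeff i)) →
      ∀ M : ℕ, (M : ℝ) ≤ (X : ℝ) ^ c → ∀ (A B : Fin M → Fin r → MvPolynomial (Fin m) (𝓞 F))
        (γ : Fin M → Fin 3 → Ideal (𝓞 F) → Fin N → ℂ),
        (∀ k i, A k i ≠ 0 ∧ IsBounded D (Real.exp ((Real.log X) ^ H)) (A k i) ∧
          IsBounded D (Real.exp ((Real.log X) ^ H)) (B k i)) →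
        (∀ k i v j, ‖γ k i v j‖ ≤ 1) →
        ({t : ℤ | |t| ≤ X ∧ ¬ ∀ (L : Type) [Field L] [NumberField L] [Algebra F L] (θ : 𝓞 L),
          Generates f t θ → ∀ (k : Fin M) (T : ℕ), (Real.log X) ^ (1 / c) ≤ T → (T : ℝ) ≤ (X : ℝ) ^ c →
            ‖tauberSum (fun i => MvPolynomial.map (algebraMap (𝓞 F) (𝓞 L)) (A k i))
                (fun i => MvPolynomial.map (algebraMap (𝓞 F) (𝓞 L)) (B k i) + MvPolynomial.C θ)
                (baseChange L (γ k)) T -
              expectedSum (picardNumber (A k) (B k)) (γ k) T‖ ≤ (T : ℝ) ^ (1 / 2 + δ)}.ncard : ℝ) ≤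
          (X : ℝ) ^ (1 - c) := by
  rename_i hn hδ
  classical
  obtain ⟨c, hc0, X₀, h⟩ := Pool.Agent.Y693.TP.thmF d n r N m D hn H δ hδ
  refine ⟨c, hc0, X₀, fun X hX F _ _ hF f hf hfn hcoef M hM A B γ hAB hγ => ?_⟩
  have h1 := h X hX F hF f hf hfn hcoef M hM A B (fun k => γ k 0) (fun k => γ k 1) (fun k => γ k 2)
    (fun k i => (hAB k i).1) (fun k i => ⟨(hAB k i).2.1.1, (hAB k i).2.2.1⟩)
    (fun k i e σ => ⟨(hAB k i).2.1.2 e σ, (hAB k i).2.2.2 e σ⟩)
    (fun k v j => hγ k 0 v j) (fun k v j => hγ k 1 v j) (fun k v j => hγ k 2 v j)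
  refine le_trans ?_ h1
  -- the coefficients
  have hcoeff : ∀ {K : Type} [Field K] [NumberField K]
      (g : Fin 3 → HeightOneSpectrum (𝓞 K) → Fin N → ℂ) (w : HeightOneSpectrum (𝓞 K))
      (α β : Fin r → 𝓞 K ⧸ w.asIdeal), IsGood w α β →
      coefficient g w α β = Pool.Agent.Y693.TP.ck w α β (∑ j, g 0 w j) (∑ j, g 1 w j)
        (∑ j, g 2 w j) := by
    intro K _ _ g w α β hw
    have hq : (0 : ℝ) < (Ideal.absNorm w.asIdeal : ℝ) := Pool.Agent.Y770.EP.nm_pos' w
    have hs : 0 < √(Ideal.absNorm w.asIdeal : ℝ) := Real.sqrt_pos.2 hq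
    have hss : (√(Ideal.absNorm w.asIdeal : ℝ) : ℂ) * (√(Ideal.absNorm w.asIdeal : ℝ) : ℂ) =
        (Ideal.absNorm w.asIdeal : ℂ) := by
      rw [← Complex.ofReal_mul, Real.mul_self_sqrt hq.le, Complex.ofReal_natCast]
    have hqc : (Ideal.absNorm w.asIdeal : ℂ) ≠ 0 := by
      rw [← Complex.ofReal_natCast]
      exact_mod_cast hq.ne'
    have hsc : (√(Ideal.absNorm w.asIdeal : ℝ) : ℂ) ≠ 0 := by
      exact_mod_cast hs.ne'
    have htv : ∀ i, trace w (α i) (β i) =
        (Pool.Agent.Y693.TP.tk w (α i) (β i) : ℂ) * (√(Ideal.absNorm w.asIdeal : ℝ) : ℂ) := by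
      intro i
      unfold Pool.Agent.Y693.TP.tk
      rw [← Complex.ofReal_mul]
      have e1 : ((Pool.Agent.H921R2.TatePole.nm w : ℝ) -
          Nat.card {P : (𝓞 K ⧸ w.asIdeal) × (𝓞 K ⧸ w.asIdeal) //
            P.2 ^ 2 = P.1 ^ 3 + α i * P.1 + β i}) /
          √(Pool.Agent.H921R2.TatePole.nm w : ℝ) * √(Ideal.absNorm w.asIdeal : ℝ) =
          (Ideal.absNorm w.asIdeal : ℝ) -
            Nat.card {P : (𝓞 K ⧸ w.asIdeal) × (𝓞 K ⧸ w.asIdeal) //
              P.2 ^ 2 = P.1 ^ 3 + α i * P.1 + β i} :=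
        div_mul_cancel₀ _ hs.ne'
      rw [e1]
      push_cast
      rfl
    have e1 : trace1 w α β / (√(Ideal.absNorm w.asIdeal : ℝ) : ℂ) =
        ((∑ i, Pool.Agent.Y693.TP.tk w (α i) (β i) : ℝ) : ℂ) := by
      unfold trace1
      rw [Complex.ofReal_sum, Finset.sum_congr rfl fun i _ => htv i, ← Finset.sum_mul,
        mul_div_cancel_right₀ _ hsc]
    have e2 : trace2 w α β / (Ideal.absNorm w.asIdeal : ℂ) =
        ((∑ x ∈ Pool.Agent.Y693.TP.prs r, Pool.Agent.Y693.TP.tk w (α x.1) (β x.1) *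
          Pool.Agent.Y693.TP.tk w (α x.2) (β x.2) + r : ℝ) : ℂ) := by
      unfold trace2 Pool.Agent.Y693.TP.prs
      have e3 : ∀ i : Fin r, Finset.Ioi i = Finset.univ.filter fun j => i < j := by
        intro i
        ext j
        simp
      have e4 : ∑ i, ∑ j ∈ Finset.Ioi i, trace w (α i) (β i) * trace w (α j) (β j) =
          (∑ x ∈ Finset.univ.filter (fun x : Fin r × Fin r => x.1 < x.2),
            ((Pool.Agent.Y693.TP.tk w (α x.1) (β x.1) : ℂ) *
              (Pool.Agent.Y693.TP.tk w (α x.2) (β x.2) : ℂ))) * (Ideal.absNorm w.asIdeal : ℂ) := by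
        rw [Finset.sum_filter, Fintype.sum_prod_type, Finset.sum_mul]
        refine Finset.sum_congr rfl fun i _ => ?_
        rw [e3, Finset.sum_filter, Finset.sum_mul]
        refine Finset.sum_congr rfl fun j _ => ?_
        split_ifs
        · rw [htv, htv, ← hss]
          ring
        · rw [zero_mul]
      rw [e4, ← add_mul, mul_div_cancel_right₀ _ hqc]
      push_cast
      ring
    unfold coefficient Pool.Agent.Y693.TP.ck
    have hw' : Pool.Agent.Y693.TP.gk w α β := hw
    rw [if_pos hw', e1, e2]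
  have hav : ∀ {K : Type} [Field K] [NumberField K] (P Q : Fin r → MvPolynomial (Fin m) (𝓞 K))
      (g : Fin 3 → HeightOneSpectrum (𝓞 K) → Fin N → ℂ) (w : HeightOneSpectrum (𝓞 K)),
      fibreAverage P Q g w = Pool.Agent.Y693.TP.av P Q (g 0) (g 1) (g 2) w := by
    intro K _ _ P Q g w
    unfold fibreAverage Pool.Agent.Y693.TP.av
    congr 1
    rw [finsum_mem_def]
    refine finsum_congr fun u => ?_
    by_cases hu : IsGood w (fun i => value w (P i) u) (fun i => value w (Q i) u)
    · have hu1 : u ∈ {u : Fin m → 𝓞 K ⧸ w.asIdeal | IsGood w (fun i => value w (P i) u)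
          (fun i => value w (Q i) u)} := hu
      rw [Set.indicator_of_mem hu1, hcoeff g w _ _ hu]
      rfl
    · have hu1 : u ∉ {u : Fin m → 𝓞 K ⧸ w.asIdeal | IsGood w (fun i => value w (P i) u)
          (fun i => value w (Q i) u)} := hu
      have hu2 : ¬ Pool.Agent.Y693.TP.gk w (fun i => Pool.Agent.Y693.TP.sp w (P i) u)
          (fun i => Pool.Agent.Y693.TP.sp w (Q i) u) := hu
      rw [Set.indicator_of_notMem hu1]
      unfold Pool.Agent.Y693.TP.ck
      rw [if_neg hu2]
  have hsum : ∀ {K : Type} [Field K] [NumberField K] (P Q : Fin r → MvPolynomial (Fin m) (𝓞 K))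
      (g : Fin 3 → HeightOneSpectrum (𝓞 K) → Fin N → ℂ) (T : ℕ),
      tauberSum P Q g T = ∑ w ∈ Pool.Agent.Y770.EP.FN K T,
        Pool.Agent.Y693.TP.av P Q (g 0) (g 1) (g 2) w *
          Real.log (Pool.Agent.H921R2.TatePole.nm w) := by
    intro K _ _ P Q g T
    unfold tauberSum
    have e1 : {v : HeightOneSpectrum (𝓞 K) | Ideal.absNorm v.asIdeal ≤ T} =
        (Pool.Agent.Y770.EP.FN K T : Finset (HeightOneSpectrum (𝓞 K))) := by
      ext v
      rw [Finset.mem_coe, Pool.Agent.Y770.EP.mem_FN]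
      rfl
    rw [e1, finsum_mem_coe_finset]
    refine Finset.sum_congr rfl fun w _ => ?_
    rw [hav]
    rfl
  have hexp : ∀ {K : Type} [Field K] [NumberField K] (P Q : Fin r → MvPolynomial (Fin m) (𝓞 K))
      (g : Fin 3 → Ideal (𝓞 K) → Fin N → ℂ) (T : ℕ),
      expectedSum (picardNumber P Q) g T = ∑ v ∈ Pool.Agent.Y770.EP.FN K T,
        Pool.Agent.Y693.TP.hh (r + (Pool.Agent.Y693.TP.eqP P Q).card) (fun v => g 0 v.asIdeal)
          (fun v => g 2 v.asIdeal) v * Real.log (Pool.Agent.H921R2.TatePole.nm v) := by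
    intro K _ _ P Q g T
    unfold expectedSum
    have e1 : {v : HeightOneSpectrum (𝓞 K) | Ideal.absNorm v.asIdeal ≤ T} =
        (Pool.Agent.Y770.EP.FN K T : Finset (HeightOneSpectrum (𝓞 K))) := by
      ext v
      rw [Finset.mem_coe, Pool.Agent.Y770.EP.mem_FN]
      rfl
    have e2 : picardNumber P Q = r + (Pool.Agent.Y693.TP.eqP P Q).card := by
      unfold picardNumber
      congr 1
      rw [← Set.ncard_coe_finset]
      congr 1
      ext x
      unfold Pool.Agent.Y693.TP.eqP Pool.Agent.Y693.TP.prs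
      rw [Finset.mem_coe, Finset.mem_filter, Finset.mem_filter]
      simp
    rw [e1, finsum_mem_coe_finset, e2]
    rfl
  have hfin : {t : ℤ | |t| ≤ X ∧ ¬ ∀ (L : Type) [Field L] [NumberField L] [Algebra F L] (θ : 𝓞 L),
      Pool.Agent.Y693.RF.Gen (f + Polynomial.C (t : 𝓞 F)) θ → ∀ k,
        Pool.Agent.Y693.TP.BF δ c X (A k) (B k) (γ k 0) (γ k 1) (γ k 2) L θ}.Finite := by
    refine Set.Finite.subset (Set.finite_Icc (-(X : ℤ)) X) fun t ht => ?_
    have := abs_le.1 ht.1
    exact ⟨this.1, this.2⟩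
  refine Nat.cast_le.2 (Set.ncard_le_ncard ?_ hfin)
  rintro t ⟨ht1, ht2⟩
  refine ⟨ht1, fun hcon => ht2 ?_⟩
  intro L _ _ _ θ hθ k T hT1 hT2
  have h5 := hcon L θ ⟨hθ.1, by rw [hθ.2.1, Polynomial.natDegree_add_C], hθ.2.2⟩ k T hT1 hT2
  rw [hsum, hexp]
  exact h5

end Pool.Agent.Results.MP_6090f9_nt.RandomNumberFields
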