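import Pool.Agent.Y139.FD.C

/-!
# The second moment of the Frobenius averages of a fibration off its algebraic part

`f : 𝒳 → 𝒴` is a fibration over a number field `K`, given over an affine open part of `𝒴` over which the
fibres are smooth, and `W` is the space `NS(X / K̄(𝒴)) ⊗ ℚ` with the action of the absolute Galois group
of `K`, for the generic fibre `X`.  For a number field `F ⊇ K` the rank of `NS(X / F(𝒴))` is
`dim W^{Gal(K̄/F)}`, and Q1 for `f` over `F` says that the residue at `s = 2` of the Dirichlet series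
`F(s) = ∑ 𝔅_v (log q_v) q_v^{-s}` over the primes `v` of `F` is this rank.  With the values
`z_v = 𝔅_v / q_v`, `(s - 1) ∑ z_v (log q_v) q_v^{-s}` is the value of `(s' - 2) F(s')` at `s' = s + 1`.
The definitions are in `Pool.Agent.Y139.FD.Defs`, `Pool.Agent.W353.FB.Defs`, `Pool.Agent.W353.SP.Defs`,
`Pool.Agent.W353.AT.TDefs`, `Pool.Agent.W353.AT.Defs` and `Pool.Agent.W353.TD.Defs`.
-/

set_option autoImplicit false

namespace Pool.Agent.Results.MP_6090f9_nt.SecondMoment

open NumberField IsDedekindDomain Filter Topology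
open Pool.Agent.W353.FB Pool.Agent.Y139.FD
open Pool.Agent.W353.AT (IsArtin twistRank fixedDim)
open Pool.Agent.W353.TD (rank)

/-- **The second moment of a fibration.**  Let `W` be a part of the values `z_v = 𝔅_v / q_v` of the
fibration `f`, and let `E(s)` be `(s - 1) ∑ (z_v - Tr(Frob_v | W))² (log q_v) q_v^{-s}`.

(1) *Bessel.*  For inequivalent irreducible Artin representations `χ_k` of `K`, and for `s > 1` close
enough to `1`, the sum over `k` of the squares of
`(s - 1) ∑ z_v Re χ_k(Frob_v) (log q_v) q_v^{-s} - dim (W ⊗ χ_k)^G` is at most `E(s) + η`.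

(2) *Dichotomy.*  Suppose that `E(s)` tends to `M ≤ 1` for `s → 1+`, and that the residues of the
Dirichlet series twisted by the irreducible Artin representations `χ` of `K` are `dim (W ⊗ χ)^G - y_χ`
with integers `y_χ`.  Then the residue formula of Q1 holds over all number fields `F ⊇ K`, or there
is one irreducible Artin representation `χ`, its character is real, `M = 1`, `y_χ = ± 1`, all other
`y` are `0`, the residue over each number field `F ⊇ K` is `rank - y_χ dim χ^{Gal(K̄/F)}`, and the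
squares of `z_v - (Tr(Frob_v | W) - y_χ χ(Frob_v))` have mean value `0`. -/
theorem result (K : Type) [Field K] [NumberField K] (f : Fibration K) (N : ℕ)
    (W : Type) [AddCommGroup W] [Module ℚ W] [FiniteDimensional ℚ W]
    (ρ : Representation ℚ Gal(AlgebraicClosure K/K) W)
    (hW : IsPartOf (degreeTwoValue f) N ρ)
    (R₂ : Finset (HeightOneSpectrum (𝓞 K))) (b₂ : HeightOneSpectrum (𝓞 K) → ℝ)
    (h₂ : IsResidualSquare (degreeTwoValue f) ρ R₂ b₂) :
    (∀ (m : ℕ) (n : Fin m → ℕ)
      (χ : ∀ k, Representation ℂ Gal(AlgebraicClosure K/K) (Fin (n k) → ℂ))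
      (R : Fin m → Finset (HeightOneSpectrum (𝓞 K)))
      (b : Fin m → HeightOneSpectrum (𝓞 K) → ℝ) (η : ℝ), 0 < η →
      (∀ k, IsArtin (χ k) ∧ (χ k).IsIrreducible) →
      (∀ k k', k ≠ k' → IsEmpty ((χ k).Equiv (χ k'))) →
      (∀ k, IsTwistedSystem (degreeTwoValue f) (χ k) (R k) (b k)) →
      ∀ᶠ s in 𝓝[>] (1 : ℝ), ∑ k, (residue (R k) (b k) s - twistRank ρ (χ k)) ^ 2 ≤
        residue R₂ b₂ s + η) ∧
    ∀ M : ℝ, M ≤ 1 → Tendsto (residue R₂ b₂) (𝓝[>] 1) (𝓝 M) →
      (∀ (n : ℕ) (χ : Representation ℂ Gal(AlgebraicClosure K/K) (Fin n → ℂ)), IsArtin χ →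
        χ.IsIrreducible → ∃ y : ℤ, HasDefect (degreeTwoValue f) ρ χ y) →
      (∀ (F : IntermediateField K (AlgebraicClosure K)) [NumberField F]
        (R : Finset (HeightOneSpectrum (𝓞 F))) (b : HeightOneSpectrum (𝓞 F) → ℝ),
        IsSystem (degreeTwoValue f) R b →
          Tendsto (residue R b) (𝓝[>] 1) (𝓝 (rank ρ F : ℝ))) ∨
      ∃ (n : ℕ) (χ : Representation ℂ Gal(AlgebraicClosure K/K) (Fin n → ℂ)) (y : ℤ),
        IsArtin χ ∧ χ.IsIrreducible ∧ (∀ g, (χ.character g).im = 0) ∧ (y = 1 ∨ y = -1) ∧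
        M = 1 ∧ HasDefect (degreeTwoValue f) ρ χ y ∧
        (∀ (n' : ℕ) (χ' : Representation ℂ Gal(AlgebraicClosure K/K) (Fin n' → ℂ)),
          IsArtin χ' → χ'.IsIrreducible → IsEmpty (χ'.Equiv χ) →
            HasDefect (degreeTwoValue f) ρ χ' 0) ∧
        (∀ (F : IntermediateField K (AlgebraicClosure K)) [NumberField F]
          (R : Finset (HeightOneSpectrum (𝓞 F))) (b : HeightOneSpectrum (𝓞 F) → ℝ),
          IsSystem (degreeTwoValue f) R b →
            Tendsto (residue R b) (𝓝[>] 1) (𝓝 ((rank ρ F : ℝ) - y * fixedDim χ F))) ∧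
        ∀ (R : Finset (HeightOneSpectrum (𝓞 K))) (b : HeightOneSpectrum (𝓞 K) → ℝ),
          IsCorrectedSquare (degreeTwoValue f) ρ χ y R b →
            Tendsto (residue R b) (𝓝[>] 1) (𝓝 0) := by
  have hu := degreeTwo_uniq f
  refine ⟨fun m n χ R b η hη hA hne hb => ?_, fun M M1 hM H => ?_⟩
  · exact besselRes hu hW (Fin m) n χ (fun k => (hA k).1) (fun k => (hA k).2) hne R b hb R₂ b₂ h₂ hη
  · exact dicho hu hW R₂ b₂ h₂ M1 hM H

end Pool.Agent.Results.MP_6090f9_nt.SecondMoment
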