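import Pool.Agent.Y707.SF.Fin

/-!
# The residue formula for linear pencils of surfaces with a hyperelliptic fibration

`V` is the variety of the points `(x, y)` with `y_i ^ 2 = G_i(x)`, over the number field `K`, for
polynomials `G_i` in `k` variables such that no product of some of them is a constant times a square:
all function fields of characteristic zero that are generated over a purely transcendental extension of
a number field by square roots are of this form.  `X` is the smooth projective surface
`Y ^ 2 = a(x, t, X) + w ∏ (X - α_j(x, t))` over the function field `E(V × 𝔸¹) = E(V)(w)`, for any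
number field `E ⊇ K`.  It is fibred over the projective line with coordinate `t`, into curves of
arithmetic genus `g`; for `g = 1` these are elliptic surfaces, among them rational surfaces for `n = 1`
and K3 surfaces for `n = 2`, and for large `g` and `n` they are of general type.

`𝔅_v` is the fibre average at the prime `v` of `E`, over the points `(x, y, w)` of the base with
`y_i ≠ 0` and smooth fibre; the other points of a projective model of the base change `𝔅_v` by `O(1)`,
which does not affect the residue at `s = 2`.
-/

set_option autoImplicit false
set_option maxHeartbeats 400000

namespace Pool.Agent.Results.MP_6090f9_nt.SurfacePencils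

open Polynomial NumberField IsDedekindDomain Pool.Agent.Y707.SF
open Pool.Agent.Y707.PR (HasResidue)
open Pool.Agent.Y707.PC (IsFunctionField exists_field)

theorem result (K : Type) [Field K] [NumberField K] (k l r g n : ℕ)
    (G : Fin l → MvPolynomial (Fin k) (𝓞 K)) (a : (MvPolynomial (Fin k) (𝓞 K))[X][X])
    (α : Fin r → (MvPolynomial (Fin k) (𝓞 K))[X]) (h : IsSurfacePencil g n G a α)
    (E : IntermediateField K (AlgebraicClosure K)) [NumberField E] :
    -- the analytic side: the residue at `s = 2` of the series of the averages `𝔅_v`
    (∀ R : Finset (HeightOneSpectrum (𝓞 E)), HasResidue R
      (fun v => averageTwo g n G a α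
        ((Ideal.Quotient.mk v.asIdeal).comp (algebraMap (𝓞 K) (𝓞 E)))) 2 (classes G a α E + 2)) ∧
    -- the algebraic side: the Néron-Severi rank over `M(w)`, for the function field `M` of `V` over `E`
    (∀ (M : Type) [Field M] [Algebra E M] (ξ : Fin k → M) (η : Fin l → M),
      IsFunctionField G E ξ η → IsSmoothSurface g n (genericSurface a α E ξ) ∧
        PicardRankAddTwo (genericSurface a α E ξ) (classes G a α E)) ∧
    -- the function field exists
    (∃ (M : Type) (_ : Field M) (_ : Algebra E M) (ξ : Fin k → M) (η : Fin l → M),
      IsFunctionField G E ξ η) :=
  ⟨fun R => surface_residue h E R, fun _ _ _ _ _ hM => surface_algebraic h E hM,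
    exists_field G E⟩

end Pool.Agent.Results.MP_6090f9_nt.SurfacePencils
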